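import Pool.Agent.H57.AR.Targets
import Pool.Agent.H57.SO.Uv

/-!
# BKGR: the map for the structure of the fibres
-/

set_option autoImplicit false
set_option linter.unusedVariables false

namespace Pool.Agent.H18.AR

open Pool.Agent.H68.BP Pool.Agent.H58.SF Pool.Agent.H53.GC Pool.Agent.H53.NR Pool.Agent.H53.GR
open Pool.Agent.H57.AR
open Pool.Agent.H57.SO (Pal Col vt Sb FBl fib sigF SF relP_cx)
open Pool.Agent.H57.EQ (Cx)
open Function

theorem pat_eq_iff {V : Type} (r : Fin 3) (x y x' y' : V) :
    pat r x y = pat r x' y' ↔ x = x' ∧ y = y' := by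
  constructor
  · intro h
    have h0 := congrFun h 0
    have h1 := congrFun h 1
    have h2 := congrFun h 2
    fin_cases r
    · exact ⟨h0, h2⟩
    · exact ⟨h0, h1⟩
    · exact ⟨h1, h0⟩
  · rintro ⟨rfl, rfl⟩
    rfl

theorem relP_tyi {V : Type} {σ ρ : Sig} {𝔸 : Str σ V} {𝔹 : Str ρ V} {M : ℕ}
    (h : ∀ (l : Fin σ.m) (x y : Fin (σ.ar l) → V), 𝔸 l x → tp 𝔹 y = tp 𝔹 x → 𝔸 l y)
    (s : Option (Fin σ.m)) (x y : Fin (arP σ M s) → V) (hx : relP 𝔸 M s x)
    (hxy : tp 𝔹 y = tp 𝔹 x) : relP 𝔸 M s y := by
  cases s with
  | none => trivial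
  | some l => exact h l x y hx hxy

theorem pf_BKGR : Pool.Agent.H57.AR.T_BKGR := by
  classical
  intro σ ρ V S X _ _ P 𝔸 𝔹 M c hS h h2 h' hO hb
  have hc := hS.lnk.col
  obtain ⟨hex, hb2⟩ := hb
  refine ⟨?_, ?_⟩
  · intro s v hv
    obtain ⟨e, he1, he2, he3, he4, he5⟩ := hb2 (Finset.univ.image v)
    have hm : ∀ a, v a ∈ Finset.univ.image v := fun a =>
      Finset.mem_image_of_mem v (Finset.mem_univ a)
    obtain ⟨ψ, hψ1, hψ2⟩ := hO.full.comb (Fin (arP (sigF S σ M) M s)) (fun l a => e (v a) l)
    have hψ2' : tp 𝔹 ψ = pullT h (fun a => e (v a)) := hψ2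
    have hψ3 : tp 𝔹 ψ = pullT h' v := by rw [he5 _ v hm, hψ2']
    have heq : ∀ a b, ψ a = ψ b ↔ h'.1 (v a) (v b) := fun a b =>
      iff_of_eq (congrFun (congrFun (congrArg Prod.fst hψ3) a) b)
    have hrel : ∀ (R : Fin ρ.m) (z : Fin (ρ.ar R) → Fin (arP (sigF S σ M) M s)),
        𝔹 R (fun i => ψ (z i)) ↔ h'.2 R (fun i => v (z i)) := fun R z =>
      iff_of_eq (congrFun (congrFun (congrArg Prod.snd hψ3) R) z)
    refine ⟨ψ, ?_, ?_, ?_⟩
    · cases s with
      | none => trivial
      | some i =>
        obtain ⟨θ, hθ⟩ : ∃ θ, θ = ((Finite.equivFin (SF S σ M)).symm i).2.2.2 := ⟨_, rfl⟩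
        have hinj : ∀ l, Injective (fun a => v a l) := fun l => (hv l).1
        have hty : ∀ l a, c (v a l) (v a l) = Sum.inl (θ a) := by
          intro l a
          rw [hθ]
          exact (hv l).2.1 a
        have hdi : ∀ a l, c (e (v a) l) (e (v a) l) = Sum.inl (θ a) := by
          intro a l
          rw [← hty l a, hS.lnk.eq]
          refine ⟨by simp, fun R f => ?_⟩
          simp only [ite_self]
          have h3 := he2 l R (fun _ => v a) (fun _ => hm a)
          exact h3.trans ⟨fun h4 => h4.1, fun h4 => ⟨h4, fun _ _ _ => rfl⟩⟩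
        have hF : ∀ a, FBl P c (θ a) (e (v a)) := by
          intro a
          refine ⟨hdi a, fun l l' hne => ?_⟩
          rw [he3 _ (hm a) l l' hne, hc.vt_of (hty l a), hc.vt_of (hty l' a)]
        have hcol : ∀ a b, c (ψ a) (ψ b) = h2 (e (v a)) (e (v b)) := by
          intro a b
          refine hO.link _ _ _ _ ?_
          have h3 : tp 𝔹 (fun i => ψ (![a, b] i)) = pullT h (fun i => e (v (![a, b] i))) :=
            congrArg (fun t => pullT t ![a, b]) hψ2'
          have e1 : (fun i => ψ (![a, b] i)) = ![ψ a, ψ b] := by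
            funext i
            fin_cases i <;> rfl
          have e2 : (fun i => e (v (![a, b] i))) = ![e (v a), e (v b)] := by
            funext i
            fin_cases i <;> rfl
          rw [e1, e2] at h3
          exact h3
        have hT : ∀ a, Two 𝔹 (e (v a)) := by
          intro a R z hz
          obtain ⟨a', b', hab⟩ := he4 _ (hm a) _ (hm a) R (fun i => Sum.inl (z i)) hz
          rcases a' with a' | a' <;> rcases b' with b' | b' <;> exact ⟨a', b', hab⟩
        have hψt : ∀ a, c (ψ a) (ψ a) = Sum.inl (θ a) := by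
          intro a
          rw [hcol]
          exact hO.core.idem _ _ (hF a) (hT a)
        refine ⟨?_, fun a => ?_, ?_⟩
        · intro a b hab
          by_contra hne
          have h1 : v a ≠ v b := fun h2 => hne (hinj 0 (congrFun h2 0))
          have h3 : θ a = θ b := by
            have h4 := hψt a
            rw [hab, hψt b] at h4
            exact (Sum.inl_injective h4).symm
          have hFb := hF b
          rw [← h3] at hFb
          have h2' : c (ψ a) (ψ b) = Sum.inl (θ a) := by
            rw [← hψt a, hab]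
          exact hO.core.ncol (θ a) _ _ (hF a) hFb (he4 _ (hm a) _ (hm b))
            (fun l l' => he1 _ (hm a) _ (hm b) h1 l l') (θ a) ((hcol a b).symm.trans h2')
        · rw [hψt a, hθ]
        · refine relP_cx hψ1 _ _ fun l => ?_
          have htp : tp 𝔹 (fun a => e (v a) l) = tp 𝔹 (fun a => v a l) := by
            refine Prod.ext ?_ ?_
            · funext a b
              refine propext ⟨fun h3 => ?_, fun h3 => ?_⟩
              · by_contra hne
                exact he1 _ (hm a) _ (hm b) (fun h4 => hne (by
                  show v a l = v b l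
                  rw [h4])) l l h3
              · have h4 : a = b := hinj l h3
                show e (v a) l = e (v b) l
                rw [h4]
            · funext R z
              refine propext ((he2 l R (fun i => v (z i)) (fun i => hm _)).trans
                ⟨fun h4 => h4.1, fun h4 => ⟨h4, fun i j hij => ?_⟩⟩)
              have h5 : z i = z j := hinj l hij
              show v (z i) = v (z j)
              rw [h5]
          have htp2 : tp 𝔹 (fun a => e (v (((Finite.equivFin (SF S σ M)).symm i).2.2.1 a)) l) =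
              tp 𝔹 (fun a => v (((Finite.equivFin (SF S σ M)).symm i).2.2.1 a) l) :=
            congrArg (fun t => pullT t ((Finite.equivFin (SF S σ M)).symm i).2.2.1) htp
          exact relP_tyi hS.base.tyi _ _ _ (hv l).2.2 htp2
    · intro a b hab
      rw [heq, hab, ← heq]
    · intro R z
      refine and_congr (hrel R z).symm (forall_congr' fun i => forall_congr' fun j => ?_)
      rw [heq]
  · intro r R x y
    have h1 := congrFun (congrFun (congrArg Prod.snd (hex r)) R) (fun i => (x i, y i))
    refine and_congr (iff_of_eq h1) (forall_congr' fun i => forall_congr' fun j => ?_)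
    have h3 := congrFun (congrFun (congrArg Prod.fst (hex r)) (x i, y i)) (x j, y j)
    refine imp_congr (iff_of_eq h3) ?_
    rw [pat_eq_iff, pat_eq_iff]

end Pool.Agent.H18.AR
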