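import Pool.Agent.H44.AR.BasicA
import Pool.Agent.H11.GR.UNI

/-!
# BLC: existence of the configuration of blocks
-/

set_option autoImplicit false

namespace Pool.Agent.H18.AR

open Pool.Agent.H68.BP Pool.Agent.H58.SF Pool.Agent.H53.GC Pool.Agent.H53.NR Pool.Agent.H53.GR
open Pool.Agent.H57.AR Pool.Agent.H44.AR
open Pool.Agent.H57.EQ (Cx)
open Function

section names

variable {V W : Type} {ρ : Sig}

/-- the names: pairs of an element of the block and the element to which the block is attached,
with the lexicographic order -/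
abbrev Nm (Q : V → Fin 6 → V) (G : W → V) : Type :=
  {p : V ×ₗ V // ∃ (w : W) (l : Fin 6), p = toLex (Q (G w) l, G w)}

/-- the element of the block -/
def yy {Q : V → Fin 6 → V} {G : W → V} (p : Nm Q G) : V := (ofLex p.1).1

/-- the element to which the block is attached -/
def xx {Q : V → Fin 6 → V} {G : W → V} (p : Nm Q G) : V := (ofLex p.1).2

/-- the structure on the names -/
def XX (𝔹 : Str ρ V) (Q : V → Fin 6 → V) (G : W → V) : Str ρ (Nm Q G) := fun r z =>
  ((∀ i j, xx (z i) = xx (z j)) ∧ 𝔹 r (fun i => yy (z i))) ∨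
    ∃ l, (∀ i, yy (z i) = Q (xx (z i)) l) ∧ 𝔹 r (fun i => xx (z i))

theorem lev {Q : V → Fin 6 → V} {G : W → V} (p : Nm Q G) : ∃ l, yy p = Q (xx p) l := by
  obtain ⟨p, w, l, rfl⟩ := p
  exact ⟨l, rfl⟩

theorem nm_ext {Q : V → Fin 6 → V} {G : W → V} {p p' : Nm Q G} (h1 : yy p = yy p')
    (h2 : xx p = xx p') : p = p' :=
  Subtype.ext (ofLex.injective (Prod.ext h1 h2))

theorem pull_XX {𝔹 : Str ρ V} {Q : V → Fin 6 → V} {G : W → V} {Z : Type} {e : Z → Nm Q G}
    {r : Fin ρ.m} {z : Fin (ρ.ar r) → Z} : pull (XX 𝔹 Q G) e r z ↔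
    ((∀ i j, xx (e (z i)) = xx (e (z j))) ∧ 𝔹 r (fun i => yy (e (z i)))) ∨
      ∃ l, (∀ i, yy (e (z i)) = Q (xx (e (z i))) l) ∧ 𝔹 r (fun i => xx (e (z i))) := Iff.rfl

end names

theorem pf_BLC : T_BLC := by
  classical
  intro ρ V _ 𝔹 M hU s q Q hq hQs hQn hQ W _ G
  have har : ∀ l, 0 < ρ.ar l := fun l => (hU.ar l).1
  have hQt : ∀ x l, ty 𝔹 (Q x l) = ty 𝔹 x := by
    intro x l
    by_cases hx : ty 𝔹 x = s
    · rw [hQs x hx, hq l, hx]
    · exact (hQn x hx).2 l
  have hyt : ∀ p : Nm Q G, ty 𝔹 (yy p) = ty 𝔹 (xx p) := by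
    intro p
    obtain ⟨l, hl⟩ := lev p
    rw [hl, hQt]
  have hfin : Finite (Nm Q G) := by
    refine Finite.of_surjective (fun p : W × Fin 6 =>
      (⟨toLex (Q (G p.1) p.2, G p.1), p.1, p.2, rfl⟩ : Nm Q G)) ?_
    rintro ⟨p, w, l, rfl⟩
    exact ⟨(w, l), rfl⟩
  have hOK : OK 𝔹 M (XX 𝔹 Q G) := by
    intro m e _ he hirr
    by_cases hA : ∀ a b, xx (e a) = xx (e b)
    · -- all blocks are equal
      refine ⟨fun a => yy (e a), fun a b hab => he (nm_ext hab (hA a b)), fun r z => ?_⟩
      constructor
      · intro hz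
        rcases pull_XX.1 hz with ⟨-, h⟩ | ⟨l, h1, h2⟩
        · exact h
        · have e1 : (fun i => xx (e (z i))) = fun _ => xx (e (z ⟨0, har r⟩)) :=
            funext fun i => hA _ _
          have e2 : (fun i => yy (e (z i))) = fun _ => yy (e (z ⟨0, har r⟩)) := by
            funext i
            rw [h1, h1 ⟨0, har r⟩, hA (z i) (z ⟨0, har r⟩)]
          show 𝔹 r (fun i => yy (e (z i)))
          rw [e2]
          have h3 := congrFun (hyt (e (z ⟨0, har r⟩))) r
          refine (iff_of_eq h3).2 ?_
          have h4 : 𝔹 r (fun i => xx (e (z i))) := h2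
          rw [e1] at h4
          exact h4
      · intro h
        exact Or.inl ⟨fun i j => hA _ _, h⟩
    · push Not at hA
      obtain ⟨a0, b0, hab0⟩ := hA
      -- two names with different second components have a common level
      have hlev : ∀ a b, xx (e a) ≠ xx (e b) →
          ∃ l, yy (e a) = Q (xx (e a)) l ∧ yy (e b) = Q (xx (e b)) l := by
        intro a b hab
        obtain ⟨r, z, hz, ⟨i, hi⟩, ⟨j, hj⟩⟩ := hirr a b (fun h => hab (by rw [h]))
        rcases pull_XX.1 hz with ⟨h1, h2⟩ | ⟨l, h1, h2⟩
        · exfalso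
          have := h1 i j
          rw [hi, hj] at this
          exact hab this
        · refine ⟨l, ?_, ?_⟩
          · have := h1 i
            rw [hi] at this
            exact this
          · have := h1 j
            rw [hj] at this
            exact this
      have hinj : Injective fun a => xx (e a) := by
        intro a1 a2 h12
        have h12' : xx (e a1) = xx (e a2) := h12
        by_contra hne
        have hy : yy (e a1) ≠ yy (e a2) := fun h => hne (he (nm_ext h h12'))
        obtain ⟨b, hb⟩ : ∃ b, xx (e a1) ≠ xx (e b) := by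
          by_contra hcon
          push Not at hcon
          exact hab0 (by rw [← hcon a0, ← hcon b0])
        have hs : ty 𝔹 (xx (e a1)) = s := by
          by_contra hns
          obtain ⟨hGb, -⟩ := hQn _ hns
          obtain ⟨r, z, hz, ⟨i, hi⟩, ⟨j, hj⟩⟩ := hirr a1 a2 hne
          rcases pull_XX.1 hz with ⟨h1, h2⟩ | ⟨l, h1, h2⟩
          · have hx : ∀ i', xx (e (z i')) = xx (e a1) := by
              intro i'
              have := h1 i' i
              rw [hi] at this
              exact this
            have hl : ∀ i', ∃ l, yy (e (z i')) = Q (xx (e a1)) l := by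
              intro i'
              obtain ⟨l, hl⟩ := lev (e (z i'))
              exact ⟨l, by rw [hl, hx]⟩
            choose lv hlv using hl
            have h3 : 𝔹 r (fun i' => Q (xx (e a1)) (lv i')) := by
              have : (fun i' => yy (e (z i'))) = fun i' => Q (xx (e a1)) (lv i') := funext hlv
              rw [← this]
              exact h2
            have h4 := hGb.free r lv h3 i j
            apply hy
            rw [← hi, ← hj, hlv i, hlv j, h4]
          · apply hy
            have e1 := h1 i
            have e2 := h1 j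
            rw [hi] at e1
            rw [hj] at e2
            rw [e1, e2, h12']
        have hQ1 := hQs _ hs
        have hQ2 : Q (xx (e a2)) = q := by rw [← h12', hQ1]
        obtain ⟨l, k1, k2⟩ := hlev a1 b hb
        obtain ⟨l', k3, k4⟩ := hlev a2 b (by rw [← h12']; exact hb)
        rw [hQ1] at k1
        rw [hQ2] at k3
        by_cases hsb : ty 𝔹 (xx (e b)) = s
        · rw [hQs _ hsb] at k2 k4
          exact hy (by rw [k1, k3, ← k2, ← k4])
        · have := (hQn _ hsb).1.mono.injective (k2.symm.trans k4)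
          exact hy (by rw [k1, k3, this])
      -- the common level
      obtain ⟨l0, hl0⟩ : ∃ l, ∀ a, yy (e a) = Q (xx (e a)) l := by
        by_cases hs : ∃ a, ty 𝔹 (xx (e a)) ≠ s
        · obtain ⟨a, ha⟩ := hs
          obtain ⟨l, hl⟩ := lev (e a)
          refine ⟨l, fun b => ?_⟩
          by_cases hab : xx (e a) = xx (e b)
          · have : a = b := hinj hab
            rw [← this]
            exact hl
          · obtain ⟨l', k1, k2⟩ := hlev a b hab
            have := (hQn _ ha).1.mono.injective (hl.symm.trans k1)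
            rw [this]
            exact k2
        · push Not at hs
          obtain ⟨l, hl⟩ := lev (e a0)
          refine ⟨l, fun b => ?_⟩
          by_cases hab : xx (e a0) = xx (e b)
          · have : a0 = b := hinj hab
            rw [← this]
            exact hl
          · obtain ⟨l', k1, k2⟩ := hlev a0 b hab
            rw [hQs _ (hs _)] at k1 k2 hl ⊢
            rw [k2, ← k1, hl]
      refine ⟨fun a => xx (e a), hinj, fun r z => ?_⟩
      constructor
      · intro hz
        rcases pull_XX.1 hz with ⟨h1, h2⟩ | ⟨l, h1, h2⟩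
        · have e0 : ∀ i, z i = z ⟨0, har r⟩ := fun i => hinj (h1 i ⟨0, har r⟩)
          have e1 : (fun i => xx (e (z i))) = fun _ => xx (e (z ⟨0, har r⟩)) :=
            funext fun i => by rw [e0 i]
          have e2 : (fun i => yy (e (z i))) = fun _ => yy (e (z ⟨0, har r⟩)) :=
            funext fun i => by rw [e0 i]
          show 𝔹 r (fun i => xx (e (z i)))
          rw [e1]
          refine (iff_of_eq (congrFun (hyt (e (z ⟨0, har r⟩))) r)).1 ?_
          have h4 : 𝔹 r (fun i => yy (e (z i))) := h2
          rw [e2] at h4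
          exact h4
        · exact h2
      · intro h
        exact Or.inr ⟨l0, fun i => hl0 _, h⟩
  obtain ⟨f, hf, hfe⟩ := Pool.Agent.H11.GR.pf_UNI ρ V 𝔹 M hU.univ (Nm Q G) (XX 𝔹 Q G) hOK
  refine ⟨fun w l => f ⟨toLex (Q (G w) l, G w), w, l, rfl⟩, ?_, ?_⟩
  · intro a l b l'
    rw [hf.lt_iff_lt, Subtype.mk_lt_mk, Prod.Lex.toLex_lt_toLex]
  · intro r w
    exact (hfe.2 r fun i => ⟨toLex (Q (G (w i).1) (w i).2, G (w i).1), (w i).1, (w i).2, rfl⟩).symm

end Pool.Agent.H18.AR
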