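import Pool.Agent.H44.AR.BasicA

/-!
# LNK: the colouring of the pairs
-/

set_option autoImplicit false

namespace Pool.Agent.H18.AR

open Pool.Agent.H68.BP Pool.Agent.H58.SF Pool.Agent.H53.GC Pool.Agent.H53.NR Pool.Agent.H53.GR
open Pool.Agent.H57.AR Pool.Agent.H44.AR
open Pool.Agent.H57.SO (Pal Col vt Sb FBl)
open Pool.Agent.H57.EQ (Cx)
open Function

section pairs

variable {V : Type} {ρ : Sig}

/-- types of pairs -/
abbrev T2 (ρ : Sig) : Type := (l : Fin ρ.m) → (Fin (ρ.ar l) → Bool) → Prop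

/-- the type of the pair `(x, y)` -/
def pt (𝔹 : Str ρ V) (x y : V) : T2 ρ := fun l f => 𝔹 l (fun i => if f i then y else x)

/-- the types of elements which occur -/
abbrev SS (𝔹 : Str ρ V) : Type := {s : T1 ρ // ∃ x, ty 𝔹 x = s}

/-- the types of pairs which occur -/
abbrev PP (𝔹 : Str ρ V) : Type := {t : T2 ρ // ∃ x y, x ≠ y ∧ pt 𝔹 x y = t}

/-- the free type of pairs -/
def frt (s t : T1 ρ) : T2 ρ := fun l f =>
  ((∀ i, f i = false) ∧ s l) ∨ ((∀ i, f i = true) ∧ t l)

theorem pt_left (𝔹 : Str ρ V) (x y : V) : (fun l => pt 𝔹 x y l (fun _ => false)) = ty 𝔹 x := by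
  funext l
  simp [pt, ty]

theorem pt_right (𝔹 : Str ρ V) (x y : V) : (fun l => pt 𝔹 x y l (fun _ => true)) = ty 𝔹 y := by
  funext l
  simp [pt, ty]

theorem pt_rev (𝔹 : Str ρ V) (x y : V) :
    (fun l (f : Fin (ρ.ar l) → Bool) => pt 𝔹 x y l (fun i => !f i)) = pt 𝔹 y x := by
  funext l f
  unfold pt
  congr 1
  funext i
  rcases Bool.eq_false_or_eq_true (f i) with h | h <;> simp [h]

theorem frt_rev (s t : T1 ρ) :
    (fun l (f : Fin (ρ.ar l) → Bool) => frt s t l (fun i => !f i)) = frt t s := by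
  funext l f
  simp only [frt, Bool.not_eq_false', Bool.not_eq_true', eq_iff_iff]
  exact or_comm

theorem frt_left (har : ∀ l, 0 < ρ.ar l) (s t : T1 ρ) :
    (fun l => frt s t l (fun _ => false)) = s := by
  funext l
  refine propext ⟨?_, fun h => Or.inl ⟨fun _ => rfl, h⟩⟩
  rintro (⟨-, h⟩ | ⟨h, -⟩)
  · exact h
  · exact absurd (h ⟨0, har l⟩) (by simp)

theorem frt_right (har : ∀ l, 0 < ρ.ar l) (s t : T1 ρ) :
    (fun l => frt s t l (fun _ => true)) = t := by
  funext l
  refine propext ⟨?_, fun h => Or.inr ⟨fun _ => rfl, h⟩⟩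
  rintro (⟨h, -⟩ | ⟨-, h⟩)
  · exact absurd (h ⟨0, har l⟩) (by simp)
  · exact h

theorem frt_real [LinearOrder V] {𝔹 : Str ρ V} {s t : T1 ρ} {p : Fin 2 → V}
    (h : tpo 𝔹 p = frp s t) : p 0 ≠ p 1 ∧ pt 𝔹 (p 0) (p 1) = frt s t := by
  constructor
  · intro he
    have h1 := congrFun (congrFun (congrArg Prod.snd h) 0) 1
    have h2 : p 0 < p 1 := (iff_of_eq h1).2 ⟨rfl, rfl⟩
    rw [he] at h2
    exact lt_irrefl _ h2
  · funext l f
    have h1 := congrFun (congrFun (congrArg Prod.fst h) l) (fun i => if f i then 1 else 0)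
    have e1 : (fun i => if f i then p 1 else p 0) = fun i => p (if f i then 1 else 0) := by
      funext i
      cases f i <;> simp
    unfold pt
    rw [e1]
    refine Eq.trans h1 ?_
    show (((∀ i, (if f i then (1 : Fin 2) else 0) = 0) ∧ s l) ∨
      ((∀ i, (if f i then (1 : Fin 2) else 0) = 1) ∧ t l)) = _
    unfold frt
    refine propext (or_congr (and_congr (forall_congr' fun i => ?_) Iff.rfl)
      (and_congr (forall_congr' fun i => ?_) Iff.rfl))
    · cases f i <;> simp
    · cases f i <;> simp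

end pairs

theorem pf_LNK (hFRB : T_FRB) : T_LNK := by
  classical
  intro ρ V _ 𝔹 M hU
  have har : ∀ l, 0 < ρ.ar l := fun l => (hU.ar l).1
  let P : Pal (SS 𝔹) (PP 𝔹) :=
    { ls := fun t => ⟨fun l => t.1 l (fun _ => false), by
        obtain ⟨t, x, y, hxy, rfl⟩ := t
        exact ⟨x, (pt_left 𝔹 x y).symm⟩⟩
      rs := fun t => ⟨fun l => t.1 l (fun _ => true), by
        obtain ⟨t, x, y, hxy, rfl⟩ := t
        exact ⟨y, (pt_right 𝔹 x y).symm⟩⟩
      rv := fun t => ⟨fun l f => t.1 l (fun i => !f i), by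
        obtain ⟨t, x, y, hxy, rfl⟩ := t
        exact ⟨y, x, hxy.symm, (pt_rev 𝔹 x y).symm⟩⟩
      fr := fun s t => ⟨frt s.1 t.1, by
        obtain ⟨s, x, rfl⟩ := s
        obtain ⟨t, y, rfl⟩ := t
        obtain ⟨p, hp⟩ := (hFRB ρ V 𝔹 M hU).1 x y
        exact ⟨p 0, p 1, frt_real hp⟩⟩
      ls_fr := fun s t => Subtype.ext (frt_left har s.1 t.1)
      rs_fr := fun s t => Subtype.ext (frt_right har s.1 t.1)
      rv_fr := fun s t => Subtype.ext (frt_rev s.1 t.1) }
  let c : V → V → SS 𝔹 ⊕ PP 𝔹 := fun x y =>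
    if h : x = y then Sum.inl ⟨ty 𝔹 x, x, rfl⟩ else Sum.inr ⟨pt 𝔹 x y, x, y, h, rfl⟩
  have hcd : ∀ x, c x x = Sum.inl ⟨ty 𝔹 x, x, rfl⟩ := fun x => dif_pos rfl
  have hcn : ∀ x y (h : x ≠ y), c x y = Sum.inr ⟨pt 𝔹 x y, x, y, h, rfl⟩ :=
    fun x y h => dif_neg h
  have hvt : ∀ x, vt P c x = ⟨ty 𝔹 x, x, rfl⟩ := by
    intro x
    unfold vt
    rw [hcd]
    rfl
  refine ⟨SS 𝔹, PP 𝔹, P, c, inferInstance, inferInstance, ⟨?_, ?_, ?_, ?_, ?_, ?_⟩, ?_, ?_⟩
  · intro x y
    constructor
    · rintro ⟨s, hs⟩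
      by_contra hne
      rw [hcn x y hne] at hs
      cases hs
    · rintro rfl
      exact ⟨_, hcd x⟩
  · intro x y t ht
    by_cases hxy : x = y
    · rw [hxy, hcd] at ht
      cases ht
    · rw [hcn x y hxy] at ht
      cases ht
      rw [hcd]
      exact congrArg Sum.inl (Subtype.ext (pt_left 𝔹 x y).symm)
  · intro x y t ht
    by_cases hxy : x = y
    · rw [hxy, hcd] at ht
      cases ht
    · rw [hcn x y hxy] at ht
      cases ht
      rw [hcd]
      exact congrArg Sum.inl (Subtype.ext (pt_right 𝔹 x y).symm)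
  · intro x y t ht
    by_cases hxy : x = y
    · rw [hxy, hcd] at ht
      cases ht
    · rw [hcn x y hxy] at ht
      cases ht
      rw [hcn y x (Ne.symm hxy)]
      exact congrArg Sum.inr (Subtype.ext (pt_rev 𝔹 x y).symm)
  · rintro ⟨s, x, rfl⟩
    exact ⟨x, hcd x⟩
  · rintro ⟨t, x, y, hxy, rfl⟩
    exact ⟨x, y, hcn x y hxy⟩
  · intro x y x' y'
    by_cases hxy : x = y
    · subst hxy
      by_cases hxy' : x' = y'
      · subst hxy'
        rw [hcd, hcd]
        constructor
        · intro h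
          have h1 : ty 𝔹 x = ty 𝔹 x' := congrArg Subtype.val (Sum.inl.inj h)
          refine ⟨by simp, fun l f => ?_⟩
          simp only [ite_self]
          exact iff_of_eq (congrFun h1 l)
        · rintro ⟨-, h⟩
          refine congrArg Sum.inl (Subtype.ext (funext fun l => propext ?_))
          have h1 := h l (fun _ => false)
          simp only [ite_self] at h1
          exact h1
      · rw [hcd, hcn x' y' hxy']
        constructor
        · intro h
          cases h
        · rintro ⟨h, -⟩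
          exact absurd (h.1 rfl) hxy'
    · by_cases hxy' : x' = y'
      · subst hxy'
        rw [hcd, hcn x y hxy]
        constructor
        · intro h
          cases h
        · rintro ⟨h, -⟩
          exact absurd (h.2 rfl) hxy
      · rw [hcn x y hxy, hcn x' y' hxy']
        constructor
        · intro h
          have h1 : pt 𝔹 x y = pt 𝔹 x' y' := congrArg Subtype.val (Sum.inr.inj h)
          exact ⟨iff_of_false hxy hxy', fun l f => iff_of_eq (congrFun (congrFun h1 l) f)⟩
        · rintro ⟨-, h⟩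
          exact congrArg Sum.inr (Subtype.ext (funext fun l => funext fun f => propext (h l f)))
  · intro x y hxy
    rw [hcn x y hxy, hvt, hvt]
    constructor
    · intro h
      have h1 : pt 𝔹 x y = frt (ty 𝔹 x) (ty 𝔹 y) := congrArg Subtype.val (Sum.inr.inj h)
      intro l f hf
      have h2 : frt (ty 𝔹 x) (ty 𝔹 y) l f := by
        rw [← h1]
        exact hf
      rcases h2 with h3 | h3
      · exact Or.inr h3.1
      · exact Or.inl h3.1
    · intro h
      refine congrArg Sum.inr (Subtype.ext (funext fun l => funext fun f => propext ?_))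
      constructor
      · intro hf
        have hf' : 𝔹 l (fun i => if f i then y else x) := hf
        rcases h l f hf with h1 | h1
        · refine Or.inr ⟨h1, ?_⟩
          simp only [h1, if_true] at hf'
          exact hf'
        · refine Or.inl ⟨h1, ?_⟩
          simp only [h1, if_false, Bool.false_eq_true] at hf'
          exact hf'
      · rintro (⟨h1, h2⟩ | ⟨h1, h2⟩)
        · show 𝔹 l (fun i => if f i then y else x)
          simp only [h1, if_false, Bool.false_eq_true]
          exact h2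
        · show 𝔹 l (fun i => if f i then y else x)
          simp only [h1, if_true]
          exact h2

end Pool.Agent.H18.AR
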